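import Pool.Agent.MP_5c28a4_al.H89.Final
import Pool.Agent.MP_5c28a4_al.H89S.Main

set_option autoImplicit false

namespace Pool.Agent.Results.MP_5c28a4_al.Complete

open Pool.Agent.MP_5c28a4_al Pool.Agent.MP_5c28a4_al.H89

theorem result :
    (∀ i j : Fin 3, (∀ V : Set GrpCat.{0}, IsVariety V → Prp i V → Prp j V) ↔ i ≤ j) ∧
    ∀ V : Set GrpCat.{0}, IsVariety V → Soluble V → ∀ i j : Fin 3, Prp i V ↔ Prp j V := by
  obtain ⟨⟨V, a1, a2, a3⟩, ⟨W, b1, b2, b3⟩⟩ := cexS
  have e := H26.easy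
  refine ⟨fun i j => ?_, fun U hU hS i j => ?_⟩
  · fin_cases i <;> fin_cases j
    · exact iff_of_true (fun _ _ h => h) (by decide)
    · exact iff_of_true (fun U hU h => (e U hU).1 h) (by decide)
    · exact iff_of_true (fun U hU h => (e U hU).2 ((e U hU).1 h)) (by decide)
    · exact iff_of_false (fun h => a3 (h V a1 a2)) (by decide)
    · exact iff_of_true (fun _ _ h => h) (by decide)
    · exact iff_of_true (fun U hU h => (e U hU).2 h) (by decide)
    · exact iff_of_false (fun h => b3 ((e W b1).1 (h W b1 b2))) (by decide)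
    · exact iff_of_false (fun h => b3 (h W b1 b2)) (by decide)
    · exact iff_of_true (fun _ _ h => h) (by decide)
  · obtain ⟨h1, h2⟩ := e U hU
    have h3 := H89S.main U hU hS
    fin_cases i <;> fin_cases j
    · exact Iff.rfl
    · exact ⟨h1, fun h => h3 (h2 h)⟩
    · exact ⟨fun h => h2 (h1 h), h3⟩
    · exact ⟨fun h => h3 (h2 h), h1⟩
    · exact Iff.rfl
    · exact ⟨h2, fun h => h1 (h3 h)⟩
    · exact ⟨h3, fun h => h2 (h1 h)⟩
    · exact ⟨fun h => h1 (h3 h), h2⟩
    · exact Iff.rfl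

end Pool.Agent.Results.MP_5c28a4_al.Complete
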