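import Pool.Agent.MP_5c28a4_al.H65.Main

set_option autoImplicit false

namespace Pool.Agent.Results.MP_5c28a4_al.SolubleLengthThree

open Pool.Agent.MP_5c28a4_al

theorem result : ∀ p : ℕ, p.Prime →
    ∃ r0 : ℕ, ∀ r : ℕ, r.Prime → r0 ≤ r → ¬ H89.NoIndep (H65.AAA p (p * r)) :=
  H65.not_noIndep

end Pool.Agent.Results.MP_5c28a4_al.SolubleLengthThree
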